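import Pool.Agent.Q216.Flow.Defs

set_option autoImplicit false

namespace Pool.Agent.Q216.Flow

variable {F : Interp}

theorem Exec.det {A : Flowchart F} {q : A.N} {σ : Store} {y m : ℕ} (h : Exec A q σ y m) :
    ∀ {y' m' : ℕ}, Exec A q σ y' m' → y = y' ∧ m = m' := by
  induction h with
  | halt hq =>
    intro y' m' h'
    cases h' with
    | halt hq' => rw [hq] at hq'; cases hq'; exact ⟨rfl, rfl⟩
    | op hq' _ => rw [hq] at hq'; cases hq'
    | test hq' _ => rw [hq] at hq'; cases hq'
  | op hq he ih =>
    intro y' m' h'
    cases h' with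
    | halt hq' => rw [hq] at hq'; cases hq'
    | op hq' he' =>
      rw [hq] at hq'; cases hq'
      obtain ⟨h1, h2⟩ := ih he'
      exact ⟨h1, by rw [h2]⟩
    | test hq' _ => rw [hq] at hq'; cases hq'
  | test hq he ih =>
    intro y' m' h'
    cases h' with
    | halt hq' => rw [hq] at hq'; cases hq'
    | op hq' _ => rw [hq] at hq'; cases hq'
    | test hq' he' =>
      rw [hq] at hq'; cases hq'
      obtain ⟨h1, h2⟩ := ih he'
      exact ⟨h1, by rw [h2]⟩

theorem Exec.pos {A : Flowchart F} {q : A.N} {σ : Store} {y m : ℕ} (h : Exec A q σ y m) : 1 ≤ m := by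
  cases h <;> omega

/-- rename nodes by `φ` and variables by `r` -/
def Node.map {N N' : Type} (φ : N → N') (r : ℕ → ℕ) : Node F N → Node F N'
  | .op h d a q => .op h (r d) (fun i => r (a i)) (φ q)
  | .test p a q₁ q₂ => .test p (fun i => r (a i)) (φ q₁) (φ q₂)
  | .halt v => .halt (r v)

theorem update_comp_inj {r : ℕ → ℕ} (hr : Function.Injective r) (τ : Store) (d v : ℕ) :
    (fun i => Function.update τ (r d) v (r i)) = Function.update (fun i => τ (r i)) d v := by
  funext i
  by_cases h : i = d
  · subst h; simp
  · rw [Function.update_of_ne h, Function.update_of_ne (fun h' => h (hr h'))]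

theorem exec_map {A B : Flowchart F} (φ : A.N → B.N) {r : ℕ → ℕ} (hr : Function.Injective r)
    (hB : ∀ q, B.node (φ q) = (A.node q).map φ r) {q : A.N} {σ : Store} {y m : ℕ}
    (h : Exec A q σ y m) : ∀ τ : Store, (fun i => τ (r i)) = σ → Exec B (φ q) τ y m := by
  induction h with
  | @halt q σ v hq =>
    intro τ hτ
    have h1 := hB q
    rw [hq] at h1
    subst hτ
    exact Exec.halt h1
  | @op q σ h d a q' y m hq he ih =>
    intro τ hτ
    have h1 := hB q
    rw [hq] at h1
    subst hτ
    refine Exec.op h1 (ih _ ?_)
    rw [update_comp_inj hr]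
  | @test q σ p a q₁ q₂ y m hq he ih =>
    intro τ hτ
    have h1 := hB q
    rw [hq] at h1
    subst hτ
    refine Exec.test h1 ?_
    have h2 := ih τ rfl
    rw [Bool.apply_cond φ] at h2
    exact h2

theorem exec_map_inv {A B : Flowchart F} (φ : A.N → B.N) {r : ℕ → ℕ} (hr : Function.Injective r)
    (hB : ∀ q, B.node (φ q) = (A.node q).map φ r) {b : B.N} {τ : Store} {y m : ℕ}
    (h : Exec B b τ y m) : ∀ q, b = φ q → Exec A q (fun i => τ (r i)) y m := by
  induction h with
  | @halt b τ v hb =>
    intro q hq
    subst hq
    rw [hB q] at hb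
    cases hA : A.node q with
    | op h d a q' => rw [hA] at hb; cases hb
    | test p a q₁ q₂ => rw [hA] at hb; cases hb
    | halt w =>
      rw [hA] at hb
      simp only [Node.map] at hb
      injection hb with hb
      subst hb
      exact Exec.halt (σ := fun i => τ (r i)) hA
  | @op b τ h d a b' y m hb he ih =>
    intro q hq
    subst hq
    rw [hB q] at hb
    cases hA : A.node q with
    | op h' d' a' q' =>
      rw [hA] at hb
      simp only [Node.map] at hb
      injection hb with e1 e2 e3 e4
      subst e1
      subst e2
      have e3' := eq_of_heq e3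
      subst e3'
      refine Exec.op hA ?_
      have h2 := ih q' e4.symm
      rw [update_comp_inj hr] at h2
      exact h2
    | test p a q₁ q₂ => rw [hA] at hb; cases hb
    | halt w => rw [hA] at hb; cases hb
  | @test b τ p a b₁ b₂ y m hb he ih =>
    intro q hq
    subst hq
    rw [hB q] at hb
    cases hA : A.node q with
    | op h d a q' => rw [hA] at hb; cases hb
    | test p' a' q₁ q₂ =>
      rw [hA] at hb
      simp only [Node.map] at hb
      injection hb with e1 e2 e3 e4
      subst e1
      have e2' := eq_of_heq e2
      subst e2'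
      refine Exec.test hA ?_
      apply ih
      rw [Bool.apply_cond φ, e3, e4]
    | halt w => rw [hA] at hb; cases hb

/-- prefix an operation node -/
def consOp (h : F.Fs) (d : ℕ) (a : Fin (F.fa h) → ℕ) (C : Flowchart F) : Flowchart F where
  N := Option C.N
  fin := by haveI := C.fin; infer_instance
  node := fun q => match q with
    | none => .op h d a (some C.first)
    | some q => (C.node q).map some id
  first := none

theorem node_map_id {N : Type} (x : Node F N) {N' : Type} (φ : N → N') :
    x.map φ id = x.map φ (fun i => i) := rfl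

theorem consOp_iff (h : F.Fs) (d : ℕ) (a : Fin (F.fa h) → ℕ) (C : Flowchart F) (σ : Store)
    (y m : ℕ) : Exec (consOp h d a C) (consOp h d a C).first σ y (m + 1) ↔
      Exec C C.first (Function.update σ d (F.fn h (fun i => σ (a i)))) y m := by
  constructor
  · intro H
    generalize hm : m + 1 = m' at H
    cases H with
    | halt hq => cases hq
    | @op _ _ h' d' a' q' y m'' hq he =>
      have : m'' = m := by omega
      subst this
      simp only [consOp] at hq
      injection hq with e1 e2 e3 e4
      subst e1
      subst e2
      have e3' := eq_of_heq e3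
      subst e3'
      subst e4
      exact exec_map_inv (A := C) (B := consOp h d a C) some Function.injective_id
        (fun q => rfl) he C.first rfl
    | test hq he => cases hq
  · intro H
    refine Exec.op (q' := some C.first) (h := h) (d := d) (a := a) rfl ?_
    exact exec_map (A := C) (B := consOp h d a C) some Function.injective_id (fun q => rfl) H _ rfl

/-- test node with the two branches continuing with two flowcharts -/
def consTest (p : F.Ps) (a : Fin (F.pa p) → ℕ) (C D : Flowchart F) : Flowchart F where
  N := Option (C.N ⊕ D.N)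
  fin := by haveI := C.fin; haveI := D.fin; infer_instance
  node := fun q => match q with
    | none => .test p a (some (Sum.inl C.first)) (some (Sum.inr D.first))
    | some (Sum.inl q) => (C.node q).map (fun z => some (Sum.inl z)) id
    | some (Sum.inr q) => (D.node q).map (fun z => some (Sum.inr z)) id
  first := none

theorem consTest_of (p : F.Ps) (a : Fin (F.pa p) → ℕ) (C D : Flowchart F) (σ : Store)
    (y m : ℕ) (H : if F.pr p (fun i => σ (a i)) = true then Exec C C.first σ y m
      else Exec D D.first σ y m) :
    Exec (consTest p a C D) (consTest p a C D).first σ y (m + 1) := by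
  refine Exec.test (q₁ := some (Sum.inl C.first)) (q₂ := some (Sum.inr D.first)) (p := p) (a := a)
    rfl ?_
  by_cases hp : F.pr p (fun i => σ (a i)) = true
  · rw [if_pos hp] at H
    rw [hp]
    exact exec_map (A := C) (B := consTest p a C D) (fun z => some (Sum.inl z))
      Function.injective_id (fun q => rfl) H _ rfl
  · rw [if_neg hp] at H
    rw [Bool.not_eq_true] at hp
    rw [hp]
    exact exec_map (A := D) (B := consTest p a C D) (fun z => some (Sum.inr z))
      Function.injective_id (fun q => rfl) H _ rfl

/-- the flowchart that halts at once with the value of `v` -/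
def haltF (v : ℕ) : Flowchart F where
  N := Unit
  fin := inferInstance
  node := fun _ => .halt v
  first := ()

theorem haltF_exec (v : ℕ) (σ : Store) : Exec (haltF (F := F) v) (haltF (F := F) v).first σ (σ v) 1 :=
  Exec.halt rfl

/-- rename the variables -/
def ren (r : ℕ → ℕ) (A : Flowchart F) (q : A.N) : Flowchart F where
  N := A.N
  fin := A.fin
  node := fun q => (A.node q).map id r
  first := q

theorem ren_exec {r : ℕ → ℕ} (hr : Function.Injective r) {A : Flowchart F} {q : A.N} {τ : Store}
    {y m : ℕ} (h : Exec A q (fun i => τ (r i)) y m) : Exec (ren r A q) (ren r A q).first τ y m :=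
  exec_map (A := A) (B := ren r A q) id hr (fun _ => rfl) h τ rfl

theorem Flowchart.Computes.run {A : Flowchart F} {f : ℕ → ℕ}
    (h : A.Computes (fun x => Part.some (f x))) (x : ℕ) :
    ∃ m, Exec A A.first (init x) (f x) m := by
  obtain ⟨m, m', _, h2⟩ := (h x (f x)).1 (Part.mem_some _)
  exact ⟨m', h2⟩

theorem computes_of_run {A : Flowchart F} {f : ℕ → ℕ}
    (h : ∀ x, ∃ m, Exec A A.first (init x) (f x) m) : A.Computes (fun x => Part.some (f x)) := by
  intro x y
  constructor
  · intro hy
    rw [Part.mem_some_iff] at hy
    subst hy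
    obtain ⟨m, hm⟩ := h x
    exact ⟨m + 1, m, rfl, hm⟩
  · rintro ⟨m, m', _, h2⟩
    obtain ⟨m₁, hm⟩ := h x
    rw [Part.mem_some_iff]
    exact (h2.det hm).1

end Pool.Agent.Q216.Flow
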