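import Mathlib

/-!
# Flowcharts over an interpretation and their complexity classes (MP_091941_lc)
-/

set_option autoImplicit false

namespace Pool.Agent.Q216.Flow

/-- An interpretation: a family of recursive functions and a family of recursive predicates
(decidable relations) on `ℕ`, each with its own arity. -/
structure Interp where
  /-- function symbols -/
  Fs : Type
  /-- predicate symbols -/
  Ps : Type
  /-- arity of a function symbol -/
  fa : Fs → ℕ
  /-- arity of a predicate symbol -/
  pa : Ps → ℕ
  /-- the function denoted by a function symbol -/
  fn : (h : Fs) → (Fin (fa h) → ℕ) → ℕ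
  /-- the predicate denoted by a predicate symbol -/
  pr : (p : Ps) → (Fin (pa p) → ℕ) → Bool
  fn_rec : ∀ h, Computable (fn h)
  pr_rec : ∀ p, Computable (pr p)

/-- The label of a node other than the start node, with its outgoing edges.
Program variables are numbered by `ℕ`; `N` is the type of nodes. -/
inductive Node (F : Interp) (N : Type)
  /-- operation node: `dst := h(args)`, one successor -/
  | op (h : F.Fs) (dst : ℕ) (args : Fin (F.fa h) → ℕ) (next : N) : Node F N
  /-- test node: two successors -/
  | test (p : F.Ps) (args : Fin (F.pa p) → ℕ) (yes no : N) : Node F N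
  /-- halt node; the result is the value of the variable `out` -/
  | halt (out : ℕ) : Node F N

/-- A flowchart over `F`: a finite directed graph.  The start node is not listed among the nodes `N`;
`first` is its successor. -/
structure Flowchart (F : Interp) where
  N : Type
  fin : Finite N
  node : N → Node F N
  first : N

/-- The store: a value for each program variable. -/
abbrev Store := ℕ → ℕ

/-- On input `x` the variable `0` holds `x`, all the other variables hold `0`. -/
def init (x : ℕ) : Store := fun v => if v = 0 then x else 0

/-- `Exec A q σ y m`: started at the node `q` with the store `σ`, the computation of `A` executes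
exactly `m` nodes (the halt node included), halts, and its result is `y`. -/
inductive Exec {F : Interp} (A : Flowchart F) : A.N → Store → ℕ → ℕ → Prop
  | halt {q : A.N} {σ : Store} {v : ℕ} (hq : A.node q = Node.halt v) : Exec A q σ (σ v) 1
  | op {q : A.N} {σ : Store} {h : F.Fs} {d : ℕ} {a : Fin (F.fa h) → ℕ} {q' : A.N} {y m : ℕ}
      (hq : A.node q = Node.op h d a q')
      (he : Exec A q' (Function.update σ d (F.fn h (fun i => σ (a i)))) y m) : Exec A q σ y (m + 1)
  | test {q : A.N} {σ : Store} {p : F.Ps} {a : Fin (F.pa p) → ℕ} {q₁ q₂ : A.N} {y m : ℕ}
      (hq : A.node q = Node.test p a q₁ q₂)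
      (he : Exec A (bif F.pr p (fun i => σ (a i)) then q₁ else q₂) σ y m) : Exec A q σ y (m + 1)

/-- On input `x` the flowchart `A` halts with result `y` after a computation of length exactly `m`;
the length is the number of node executions, the start node and the halt node included. -/
def Flowchart.Run {F : Interp} (A : Flowchart F) (x y m : ℕ) : Prop :=
  ∃ m', m = m' + 1 ∧ Exec A A.first (init x) y m'

/-- `A` computes the partial function `φ`. -/
def Flowchart.Computes {F : Interp} (A : Flowchart F) (φ : ℕ →. ℕ) : Prop :=
  ∀ x y, y ∈ φ x ↔ ∃ m, A.Run x y m

/-- `F` is universal: every unary partial recursive function is computed by a flowchart over `F`. -/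
def Interp.Universal (F : Interp) : Prop :=
  ∀ φ : ℕ →. ℕ, Partrec φ → ∃ A : Flowchart F, A.Computes φ

/-- `F` has finitely many functions and predicates. -/
def Interp.IsFinite (F : Interp) : Prop := Finite F.Fs ∧ Finite F.Ps

/-- `A` has length at most `t` almost everywhere. -/
def Flowchart.TimeLE {F : Interp} (A : Flowchart F) (t : ℕ → ℕ) : Prop :=
  ∃ n₀ : ℕ, ∀ x, n₀ ≤ x → ∃ y m, A.Run x y m ∧ m ≤ t x

/-- The complexity class `Φ(t)` of the flowchart measure of `F`: the total functions computed by some
flowchart over `F` whose computations have length at most `t(x)` for all but finitely many `x`. -/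
def Interp.Class (F : Interp) (t : ℕ → ℕ) : Set (ℕ → ℕ) :=
  {f | ∃ A : Flowchart F, A.Computes (fun x => Part.some (f x)) ∧ A.TimeLE t}

/-- `f =_ae g`. -/
def AE (f g : ℕ → ℕ) : Prop := {x | f x ≠ g x}.Finite

/-- The flowchart measure of `F` is finitely invariant. -/
def Interp.FinitelyInvariant (F : Interp) : Prop :=
  ∀ f g t : ℕ → ℕ, Computable f → Computable g → Computable t →
    f ∈ F.Class t → AE f g → g ∈ F.Class t

end Pool.Agent.Q216.Flow
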