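import Pool.Agent.Q216.Flow.Basic

set_option autoImplicit false

namespace Pool.Agent.Q216.Flow

variable {F : Interp}

/-- functions computed by terms of depth at most `j` -/
def T (F : Interp) : ℕ → Set (ℕ → ℕ)
  | 0 => {id, fun _ => 0}
  | j + 1 => T F j ∪ {g | ∃ (h : F.Fs) (τ : Fin (F.fa h) → (ℕ → ℕ)), (∀ i, τ i ∈ T F j) ∧
      g = fun x => F.fn h (fun i => τ i x)}

theorem T_mono {i j : ℕ} (h : i ≤ j) : T F i ⊆ T F j := by
  induction h with
  | refl => exact subset_rfl
  | step _ ih => exact ih.trans Set.subset_union_left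

theorem T_finite [Finite F.Fs] (j : ℕ) : (T F j).Finite := by
  induction j with
  | zero => exact (Set.toFinite ({id, fun _ => 0} : Set (ℕ → ℕ)))
  | succ j ih =>
    refine ih.union ?_
    have : {g | ∃ (h : F.Fs) (τ : Fin (F.fa h) → (ℕ → ℕ)), (∀ i, τ i ∈ T F j) ∧
        g = fun x => F.fn h (fun i => τ i x)} ⊆
        ⋃ h : F.Fs, (fun τ : Fin (F.fa h) → (ℕ → ℕ) => fun x => F.fn h (fun i => τ i x)) ''
          (Set.pi Set.univ (fun _ => T F j)) := by
      rintro g ⟨h, τ, hτ, rfl⟩
      exact Set.mem_iUnion.2 ⟨h, τ, fun i _ => hτ i, rfl⟩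
    exact (Set.finite_iUnion (fun h => (Set.Finite.pi' (fun _ => ih) |>.subset (by
      intro τ hτ i; exact hτ i (Set.mem_univ _))).image _)).subset this

/-- all the tests on terms of depth at most `c` have the same outcome on `x` and `x₀` -/
def Same (F : Interp) (c x x₀ : ℕ) : Prop :=
  ∀ (p : F.Ps) (τ : Fin (F.pa p) → (ℕ → ℕ)), (∀ i, τ i ∈ T F c) →
    F.pr p (fun i => τ i x) = F.pr p (fun i => τ i x₀)

theorem lock {A : Flowchart F} {c x x₀ : ℕ} (hS : Same F c x x₀) {q : A.N} {σ : Store} {y m : ℕ}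
    (h : Exec A q σ y m) : ∀ (j : ℕ) (s : ℕ → (ℕ → ℕ)), (∀ v, s v ∈ T F j) → j + m ≤ c + 1 →
      σ = (fun v => s v x) → ∃ τ ∈ T F c, Exec A q (fun v => s v x₀) (τ x₀) m := by
  induction h with
  | @halt q σ v hq =>
    intro j s hs hj hσ
    exact ⟨s v, T_mono (by omega) (hs v), Exec.halt (σ := fun v => s v x₀) hq⟩
  | @op q σ h d a q' y m hq he ih =>
    intro j s hs hj hσ
    subst hσ
    have hpos := he.pos
    obtain ⟨τ, hτ, h2⟩ := ih (j + 1)
      (Function.update s d (fun x => F.fn h (fun i => s (a i) x))) (by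
        intro v
        by_cases hv : v = d
        · subst hv
          rw [Function.update_self]
          exact Or.inr ⟨h, fun i => s (a i), fun i => hs _, rfl⟩
        · rw [Function.update_of_ne hv]
          exact Or.inl (hs v)) (by omega) (by
        funext v
        by_cases hv : v = d
        · subst hv
          rw [Function.update_self, Function.update_self]
        · rw [Function.update_of_ne hv, Function.update_of_ne hv])
    refine ⟨τ, hτ, Exec.op hq ?_⟩
    convert h2 using 1
    funext v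
    by_cases hv : v = d
    · subst hv
      rw [Function.update_self, Function.update_self]
    · rw [Function.update_of_ne hv, Function.update_of_ne hv]
  | @test q σ p a q₁ q₂ y m hq he ih =>
    intro j s hs hj hσ
    subst hσ
    obtain ⟨τ, hτ, h2⟩ := ih j s hs (by omega) rfl
    refine ⟨τ, hτ, Exec.test hq ?_⟩
    have hp : F.pr p (fun i => s (a i) x) = F.pr p (fun i => s (a i) x₀) := by
      have hpos := he.pos
      exact hS p (fun i => s (a i)) (fun i => T_mono (by omega) (hs _))
    rw [← hp]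
    exact h2

theorem exists_x₀ (hF : F.IsFinite) (c : ℕ) : ∃ x₀, {x | Same F c x x₀}.Infinite := by
  have := hF.1
  have := hF.2
  have hfin := T_finite (F := F) c
  have : Finite (T F c) := hfin
  let K := (p : F.Ps) × (Fin (F.pa p) → T F c)
  have : Finite K := by infer_instance
  let f : ℕ → (K → Bool) := fun x k => F.pr k.1 (fun i => (k.2 i).1 x)
  obtain ⟨y, hy⟩ := Finite.exists_infinite_fiber f
  rw [Set.infinite_coe_iff] at hy
  obtain ⟨x₀, hx₀⟩ := hy.nonempty
  refine ⟨x₀, hy.mono ?_⟩
  intro x hx p τ hτ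
  have h1 : f x = f x₀ := by
    rw [Set.mem_preimage, Set.mem_singleton_iff] at hx hx₀
    rw [hx, hx₀]
  exact congrFun h1 ⟨p, fun i => ⟨τ i, hτ i⟩⟩

theorem init_eq (x : ℕ) : init x = fun v => (if v = 0 then id else fun _ => 0 : ℕ → ℕ) x := by
  funext v
  unfold init
  split_ifs <;> rfl

/-- Over a finite interpretation no class with a constant bound contains all the finite variants of a
function. -/
theorem const_bound (hF : F.IsFinite) (c : ℕ) (f : ℕ → ℕ) :
    ∃ x₀ v, Function.update f x₀ v ∉ F.Class (fun _ => c) := by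
  obtain ⟨x₀, hx₀⟩ := exists_x₀ hF c
  have := hF.1
  have hfin : ((fun τ : ℕ → ℕ => τ x₀) '' (T F c)).Finite := (T_finite (F := F) c).image _
  obtain ⟨v, hv⟩ := hfin.exists_notMem
  refine ⟨x₀, v, ?_⟩
  rintro ⟨A, hA, n₀, hn₀⟩
  obtain ⟨x, hx, hxn⟩ := hx₀.exists_gt n₀
  obtain ⟨y, m, ⟨m', rfl, he⟩, hm⟩ := hn₀ x hxn.le
  have hpos := he.pos
  obtain ⟨τ, hτ, h2⟩ := lock hx he 0 (fun v => if v = 0 then id else fun _ => 0) (by
    intro v
    by_cases hv : v = 0
    · simp [hv, T]
    · simp [hv, T]) (by simp only at hm; omega) (init_eq x)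
  rw [← init_eq] at h2
  obtain ⟨m₁, h3⟩ := hA.run x₀
  rw [Function.update_self] at h3
  exact hv ⟨τ, hτ, (h2.det h3).1⟩

/-- For every interpretation, the class of the bound `2` is not closed under finite variants. -/
theorem not_finitelyInvariant (F : Interp) : ¬ F.FinitelyInvariant := by
  intro H
  have hg : Function.update (id : ℕ → ℕ) 0 1 ∈ F.Class (fun _ => 2) := by
    refine H id _ _ Computable.id ?_ (Computable.const 2) ?_ ?_
    · have : Function.update (id : ℕ → ℕ) 0 1 = fun x => Nat.casesOn x 1 (fun y => y + 1) := by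
        funext x
        cases x with
        | zero => simp
        | succ y => simp
      rw [this]
      exact Computable.nat_casesOn Computable.id (Computable.const 1)
        (Computable.succ.comp Computable.snd).to₂
    · refine ⟨haltF 0, computes_of_run (fun x => ⟨1, haltF_exec 0 (init x)⟩), 0, fun x _ =>
        ⟨init x 0, 2, ⟨1, rfl, haltF_exec 0 (init x)⟩, le_refl _⟩⟩
    · refine (Set.finite_singleton 0).subset ?_
      intro x hx
      by_contra h0
      exact hx (by rw [Function.update_of_ne h0])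
  obtain ⟨A, hA, n₀, hn₀⟩ := hg
  obtain ⟨y, m, ⟨m', rfl, he⟩, hm⟩ := hn₀ (n₀ + 1) (by omega)
  have hpos := he.pos
  have hm' : m' = 1 := by
    simp only at hm
    omega
  subst hm'
  obtain ⟨m₁, h1⟩ := hA.run (n₀ + 1)
  obtain ⟨m₀, h0⟩ := hA.run 0
  rw [Function.update_self] at h0
  obtain ⟨hy, hm₁⟩ := he.det h1
  subst hm₁
  generalize hk : 1 = k at he
  cases he with
  | @halt _ _ v hq =>
    have h2 := ((Exec.halt (σ := init 0) hq).det h0).1
    unfold init at h2
    split_ifs at h2
  | op hq he' =>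
    have := he'.pos
    omega
  | test hq he' =>
    have := he'.pos
    omega

end Pool.Agent.Q216.Flow
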