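import Pool.Agent.Q216.Flow.Basic

set_option autoImplicit false

namespace Pool.Agent.Q216.Flow

variable {F : Interp}

instance : Nonempty (Flowchart F) := ⟨haltF 0⟩

/-- location of the variables: the variable `0` stays at location `0` until it is overwritten
(`b = false`); everything else is at the locations given by `s` -/
def rr (s : ℕ → ℕ) (b : Bool) (v : ℕ) : ℕ := if v = 0 ∧ b = false then 0 else s v

theorem rr_inj {s : ℕ → ℕ} (hs : Function.Injective s) (h0 : ∀ v, s v ≠ 0) (b : Bool) :
    Function.Injective (rr s b) := by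
  intro i j h
  unfold rr at h
  split_ifs at h with h1 h2 h3
  · rw [h1.1, h2.1]
  · exact absurd h.symm (h0 _)
  · exact absurd h (h0 _)
  · exact hs h

theorem rr_update {s : ℕ → ℕ} (hs : Function.Injective s) (h0 : ∀ v, s v ≠ 0) (b : Bool)
    (τ : Store) (d v : ℕ) :
    (fun i => Function.update τ (s d) v (rr s (b || decide (d = 0)) i)) =
      Function.update (fun i => τ (rr s b i)) d v := by
  funext i
  by_cases hi : i = d
  · subst hi
    rw [Function.update_self]
    have : rr s (b || decide (i = 0)) i = s i := by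
      unfold rr
      rw [if_neg]
      rintro ⟨h1, h2⟩
      simp [h1] at h2
    rw [this, Function.update_self]
  · rw [Function.update_of_ne hi]
    have h1 : rr s (b || decide (d = 0)) i = rr s b i := by
      unfold rr
      by_cases h : i = 0
      · subst h
        have hd : ¬ d = 0 := fun h => hi h.symm
        simp [hd]
      · simp [h]
    rw [h1, Function.update_of_ne]
    unfold rr
    split_ifs
    · exact fun h => h0 _ h.symm
    · exact fun h => hi (hs h)

theorem unroll {A : Flowchart F} {s : ℕ → ℕ} (hs : Function.Injective s) (h0 : ∀ v, s v ≠ 0)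
    (leave : A.N → Bool → Flowchart F) (stay : ℕ → Flowchart F) {q : A.N} {σ₀ : Store} {y₀ m₀ : ℕ}
    (h : Exec A q σ₀ y₀ m₀) : ∀ b : Bool, ∃ B : Flowchart F, ∀ τ : Store,
      ((∃ (j : ℕ) (q' : A.N) (b' : Bool) (τ' : Store), j < m₀ ∧
          (∀ y m, Exec A q (fun i => τ (rr s b i)) y m →
            ∃ m', m = m' + j ∧ Exec A q' (fun i => τ' (rr s b' i)) y m') ∧
          (∀ v, (∀ w, v ≠ s w) → τ' v = τ v) ∧
          (∀ y m, Exec (leave q' b') (leave q' b').first τ' y m → Exec B B.first τ y (m + j))) ∧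
        ¬ ((fun i => τ (rr s b i)) = σ₀)) ∨
      (∃ (o : ℕ) (τ' : Store), (o = 0 ∨ ∃ w, o = s w) ∧ (∀ v, (∀ w, v ≠ s w) → τ' v = τ v) ∧
        Exec A q (fun i => τ (rr s b i)) (τ' o) m₀ ∧
        (∀ y m, Exec (stay o) (stay o).first τ' y m → Exec B B.first τ y (m + (m₀ - 1)))) := by
  induction h with
  | @halt q σ₀ v hq =>
    intro b
    refine ⟨stay (rr s b v), fun τ => Or.inr ⟨rr s b v, τ, ?_, fun _ _ => rfl, ?_, ?_⟩⟩
    · unfold rr
      split_ifs
      · exact Or.inl rfl
      · exact Or.inr ⟨v, rfl⟩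
    · exact Exec.halt (σ := fun i => τ (rr s b i)) hq
    · intro y m hm
      exact hm
  | @op q σ₀ h d a q' y₀ m₀ hq he ih =>
    intro b
    obtain ⟨B, hB⟩ := ih (b || decide (d = 0))
    have hpos := he.pos
    refine ⟨consOp h (s d) (fun i => rr s b (a i)) B, fun τ => ?_⟩
    set τ₁ : Store := Function.update τ (s d) (F.fn h (fun i => τ (rr s b (a i)))) with hτ₁
    have hst : (fun i => τ₁ (rr s (b || decide (d = 0)) i)) =
        Function.update (fun i => τ (rr s b i)) d (F.fn h (fun i => τ (rr s b (a i)))) :=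
      rr_update hs h0 b τ d _
    rcases hB τ₁ with ⟨⟨j, q'', b', τ', hj, h1, h2, h3⟩, h4⟩ | ⟨o, τ', ho, h1, h2, h3⟩
    · refine Or.inl ⟨⟨j + 1, q'', b', τ', by omega, ?_, ?_, ?_⟩, ?_⟩
      · intro y m hm
        cases hm with
        | halt hq' => rw [hq] at hq'; cases hq'
        | @op _ _ h' d' a' q₃ y m hq' he' =>
          rw [hq] at hq'
          cases hq'
          rw [← hst] at he'
          obtain ⟨m', hm', he''⟩ := h1 _ _ he'
          exact ⟨m', by omega, he''⟩
        | test hq' _ => rw [hq] at hq'; cases hq'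
      · intro v hv
        rw [h2 v hv, hτ₁, Function.update_of_ne (hv d)]
      · intro y m hm
        rw [← Nat.add_assoc]
        exact (consOp_iff _ _ _ _ _ _ _).2 (h3 y m hm)
      · intro hc
        apply h4
        rw [hst]
        subst hc
        rfl
    · refine Or.inr ⟨o, τ', ho, ?_, ?_, ?_⟩
      · intro v hv
        rw [h1 v hv, hτ₁, Function.update_of_ne (hv d)]
      · rw [hst] at h2
        exact Exec.op hq h2
      · intro y m hm
        have e : m + (m₀ + 1 - 1) = m + (m₀ - 1) + 1 := by omega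
        rw [e]
        exact (consOp_iff _ _ _ _ _ _ _).2 (h3 y m hm)
  | @test q σ₀ p a q₁ q₂ y₀ m₀ hq he ih =>
    intro b
    obtain ⟨B, hB⟩ := ih b
    have hpos := he.pos
    let β := F.pr p (fun i => σ₀ (a i))
    refine ⟨consTest p (fun i => rr s b (a i)) (bif β then B else leave q₁ b)
      (bif β then leave q₂ b else B), fun τ => ?_⟩
    by_cases hp : F.pr p (fun i => τ (rr s b (a i))) = β
    · -- same outcome
      have hgo : ∀ y m, Exec B B.first τ y m → Exec (consTest p (fun i => rr s b (a i))
          (bif β then B else leave q₁ b) (bif β then leave q₂ b else B))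
          (consTest p (fun i => rr s b (a i))
          (bif β then B else leave q₁ b) (bif β then leave q₂ b else B)).first τ y (m + 1) := by
        intro y m hm
        apply consTest_of
        cases hβ : β with
        | true =>
          rw [hp, hβ, if_pos rfl]
          exact hm
        | false =>
          rw [hp, hβ, if_neg (by decide)]
          exact hm
      rcases hB τ with ⟨⟨j, q'', b', τ', hj, h1, h2, h3⟩, h4⟩ | ⟨o, τ', ho, h1, h2, h3⟩
      · refine Or.inl ⟨⟨j + 1, q'', b', τ', by omega, ?_, h2, ?_⟩, h4⟩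
        · intro y m hm
          cases hm with
          | halt hq' => rw [hq] at hq'; cases hq'
          | op hq' _ => rw [hq] at hq'; cases hq'
          | @test _ _ p' a' q₁' q₂' y m hq' he' =>
            rw [hq] at hq'
            cases hq'
            have he'' : Exec A (bif β then q₁ else q₂) (fun i => τ (rr s b i)) y m := by
              rw [← hp]
              exact he'
            obtain ⟨m', hm', he3⟩ := h1 _ _ he''
            exact ⟨m', by omega, he3⟩
        · intro y m hm
          rw [← Nat.add_assoc]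
          exact hgo _ _ (h3 y m hm)
      · refine Or.inr ⟨o, τ', ho, h1, ?_, ?_⟩
        · refine Exec.test hq ?_
          have : F.pr p (fun i => (fun i => τ (rr s b i)) (a i)) = β := hp
          rw [this]
          exact h2
        · intro y m hm
          have e : m + (m₀ + 1 - 1) = m + (m₀ - 1) + 1 := by omega
          rw [e]
          exact hgo _ _ (h3 y m hm)
    · -- different outcome: leave
      refine Or.inl ⟨⟨1, bif β then q₂ else q₁, b, τ, by omega, ?_, fun _ _ => rfl, ?_⟩, ?_⟩
      · intro y m hm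
        cases hm with
        | halt hq' => rw [hq] at hq'; cases hq'
        | op hq' _ => rw [hq] at hq'; cases hq'
        | @test _ _ p' a' q₁' q₂' y m hq' he' =>
          rw [hq] at hq'
          cases hq'
          refine ⟨m, rfl, ?_⟩
          have e : (bif F.pr p (fun i => τ (rr s b (a i))) then q₁ else q₂) =
              (bif β then q₂ else q₁) := by
            revert hp
            cases F.pr p (fun i => τ (rr s b (a i))) <;> cases β <;> simp
          rw [← e]
          exact he'
      · intro y m hm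
        apply consTest_of
        cases hβ : β with
        | true =>
          rw [hβ] at hp hm
          rw [if_neg hp]
          exact hm
        | false =>
          rw [hβ, Bool.not_eq_false] at hp
          rw [hβ] at hm
          rw [if_pos hp]
          exact hm
      · intro hc
        apply hp
        subst hc
        rfl

theorem init_rr {s : ℕ → ℕ} {τ : Store} {x : ℕ} (hx : τ 0 = x)
    (hz : ∀ w, τ (s w) = 0) : (fun i => τ (rr s false i)) = init x := by
  funext i
  unfold rr init
  by_cases hi : i = 0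
  · subst hi
    simp [hx]
  · simp [hi, hz]

theorem phase2 (hU : F.Universal) (x₀ v : ℕ) : ∃ K : ℕ, ∀ o : ℕ, (∀ w, o ≠ 2 * w + 2) →
    ∃ B : Flowchart F, ∀ τ : Store, (∀ w, τ (2 * w + 2) = 0) →
      (τ 0 = x₀ → ∃ m, Exec B B.first τ v m) ∧
      (τ 0 ≠ x₀ → ∃ m, m ≤ K ∧ Exec B B.first τ (τ o) m) := by
  have hpr : Partrec (fun x : ℕ => bif decide (x = x₀) then Part.some v else (Part.none : Part ℕ)) := by
    refine Partrec.cond ?_ (Computable.const v).partrec Partrec.none
    exact ((Primrec.eq (α := ℕ)).comp Primrec.id (Primrec.const x₀)).decide.to_comp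
  obtain ⟨E, hE⟩ := hU _ hpr
  obtain ⟨m, K, _, h⟩ := (hE x₀ v).1 (by simp)
  refine ⟨K, fun o ho => ?_⟩
  obtain ⟨B, hB⟩ := unroll (s := fun w => 2 * w + 2) (fun a b h => by simp only at h; omega)
    (fun v => by simp) (fun _ _ => haltF (F := F) o) (fun o' => haltF (F := F) o') h false
  refine ⟨B, fun τ hτ => ?_⟩
  have hin : (fun i => τ (rr (fun w => 2 * w + 2) false i)) = init (τ 0) :=
    init_rr rfl hτ
  constructor
  · intro hx
    rcases hB τ with ⟨_, h4⟩ | ⟨o', τ', ho', h1, h2, h3⟩
    · exact absurd (by rw [hin, hx]) h4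
    · rw [hin, hx] at h2
      obtain ⟨h5, _⟩ := h2.det h
      have h6 := h3 _ _ (haltF_exec o' τ')
      rw [h5] at h6
      exact ⟨_, h6⟩
  · intro hx
    rcases hB τ with ⟨⟨j, q'', b', τ', hj, h1, h2, h3⟩, h4⟩ | ⟨o', τ', ho', h1, h2, h3⟩
    · have h6 := h3 _ _ (haltF_exec o τ')
      rw [h2 o ho] at h6
      exact ⟨1 + j, by omega, h6⟩
    · rw [hin] at h2
      have := (hE (τ 0) (τ' o')).2 ⟨_, _, rfl, h2⟩
      simp [hx] at this

theorem patch (hU : F.Universal) {t : ℕ → ℕ} (ht : ∀ c, ∃ n₀, ∀ x, n₀ ≤ x → c ≤ t x) {f : ℕ → ℕ}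
    (hf : f ∈ F.Class t) (x₀ v : ℕ) : Function.update f x₀ v ∈ F.Class t := by
  obtain ⟨A, hA, n₀, hn₀⟩ := hf
  obtain ⟨K, hK⟩ := phase2 hU x₀ v
  choose! B₂ hB₂ using hK
  obtain ⟨m₀, h⟩ := hA.run x₀
  have s0 : ∀ v : ℕ, 2 * v + 1 ≠ 0 := fun v => by omega
  have sinj : Function.Injective (fun v : ℕ => 2 * v + 1) := fun a b h => by simp only at h; omega
  obtain ⟨B, hB⟩ := unroll (s := fun w => 2 * w + 1) sinj s0
    (fun q' b' => ren (rr (fun w => 2 * w + 1) b') A q') B₂ h false
  have hin : ∀ x, (fun i => init x (rr (fun w => 2 * w + 1) false i)) = init x := fun x =>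
    init_rr rfl (fun w => by simp [init])
  have heven : ∀ o, (o = 0 ∨ ∃ w, o = 2 * w + 1) → ∀ w, o ≠ 2 * w + 2 := by
    rintro o (rfl | ⟨w, rfl⟩) w' <;> omega
  have key : ∀ x, x ≠ x₀ → ∀ m, Exec A A.first (init x) (f x) m →
      ∃ m', (m' = m ∨ m' ≤ K + m₀) ∧ Exec B B.first (init x) (f x) m' := by
    intro x hx m hm
    rcases hB (init x) with ⟨⟨j, q'', b', τ', hj, h1, h2, h3⟩, h4⟩ | ⟨o, τ', ho, h1, h2, h3⟩
    · rw [hin] at h1
      obtain ⟨m', hm', he⟩ := h1 _ _ hm
      exact ⟨m' + j, Or.inl hm'.symm, h3 _ _ (ren_exec (rr_inj sinj s0 b') he)⟩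
    · rw [hin] at h2
      have h5 : τ' o = f x := (h2.det hm).1
      have h6 : ∀ w, τ' (2 * w + 2) = 0 := by
        intro w
        rw [h1 _ (fun w' => by omega)]
        simp [init]
      have h7 : τ' 0 = x := by
        rw [h1 _ (fun w' => by omega)]
        simp [init]
      obtain ⟨m', hm', h8⟩ := (hB₂ o (heven o ho) τ' h6).2 (by rw [h7]; exact hx)
      rw [h5] at h8
      exact ⟨m' + (m₀ - 1), Or.inr (by omega), h3 _ _ h8⟩
  refine ⟨B, computes_of_run ?_, ?_⟩
  · intro x
    by_cases hx : x = x₀
    · subst hx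
      rw [Function.update_self]
      rcases hB (init x) with ⟨_, h4⟩ | ⟨o, τ', ho, h1, h2, h3⟩
      · exact absurd (hin x) h4
      · have h6 : ∀ w, τ' (2 * w + 2) = 0 := by
          intro w
          rw [h1 _ (fun w' => by omega)]
          simp [init]
        have h7 : τ' 0 = x := by
          rw [h1 _ (fun w' => by omega)]
          simp [init]
        obtain ⟨m, hm⟩ := (hB₂ o (heven o ho) τ' h6).1 h7
        exact ⟨_, h3 _ _ hm⟩
    · rw [Function.update_of_ne hx]
      obtain ⟨m, hm⟩ := hA.run x
      obtain ⟨m', _, hm'⟩ := key x hx m hm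
      exact ⟨m', hm'⟩
  · obtain ⟨n₁, hn₁⟩ := ht (K + m₀ + 1)
    refine ⟨max (max n₀ n₁) (x₀ + 1), fun x hx => ?_⟩
    have hx1 : n₀ ≤ x := le_trans (le_trans (le_max_left _ _) (le_max_left _ _)) hx
    have hx2 : n₁ ≤ x := le_trans (le_trans (le_max_right _ _) (le_max_left _ _)) hx
    have hx3 : x₀ + 1 ≤ x := le_trans (le_max_right _ _) hx
    obtain ⟨y, m, ⟨m', rfl, he⟩, hm⟩ := hn₀ x hx1
    obtain ⟨m₁, he₁⟩ := hA.run x
    obtain ⟨hy, hmm⟩ := he.det he₁
    subst hy
    obtain ⟨m'', h1, h2⟩ := key x (by omega) m' he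
    refine ⟨f x, m'' + 1, ⟨m'', rfl, h2⟩, ?_⟩
    have := hn₁ x hx2
    rcases h1 with h1 | h1
    · rw [h1]
      exact hm
    · omega

/-- For a universal interpretation, the classes with unbounded (tending to infinity) bounds are closed
under finite variants. -/
theorem unbounded_bound (hU : F.Universal) {t : ℕ → ℕ} (ht : ∀ c, ∃ n₀, ∀ x, n₀ ≤ x → c ≤ t x)
    {f g : ℕ → ℕ} (hf : f ∈ F.Class t) (hfg : AE f g) : g ∈ F.Class t := by
  have key : ∀ (S : Finset ℕ) (f : ℕ → ℕ), (∀ x, x ∉ S → f x = g x) → f ∈ F.Class t →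
      g ∈ F.Class t := by
    intro S
    induction S using Finset.induction_on with
    | empty =>
      intro f h1 h2
      have : f = g := funext (fun x => h1 x (Finset.notMem_empty x))
      rw [← this]
      exact h2
    | insert a S ha ih =>
      intro f h1 h2
      refine ih (Function.update f a (g a)) ?_ (patch hU ht h2 a (g a))
      intro x hx
      by_cases hxa : x = a
      · subst hxa
        rw [Function.update_self]
      · rw [Function.update_of_ne hxa]
        exact h1 x (by
          rw [Finset.mem_insert]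
          rintro (h | h)
          · exact hxa h
          · exact hx h)
  unfold AE at hfg
  refine key hfg.toFinset f ?_ hf
  intro x hx
  by_contra h
  exact hx (hfg.mem_toFinset.2 h)

end Pool.Agent.Q216.Flow
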