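import Pool.Agent.Q216.Flow.Basic

set_option autoImplicit false

namespace Pool.Agent.Q216.Flow

open Nat.Partrec (Code)

/-- `evaln` on indices -/
def ev (k i x : ℕ) : Option ℕ := Nat.Partrec.Code.evaln k (Denumerable.ofNat Code i) x

theorem ev_comp : Computable (fun v : Fin 3 → ℕ => ev (v 0) (v 1) (v 2)) := by
  have h1 : Computable (fun v : Fin 3 → ℕ => ((v 0, Denumerable.ofNat Code (v 1)), v 2)) := by
    have e : ∀ i : Fin 3, Computable (fun v : Fin 3 → ℕ => v i) := fun i =>
      (Computable.fin_app.comp Computable.id (Computable.const i))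
    exact ((e 0).pair ((Computable.ofNat Code).comp (e 1))).pair (e 2)
  exact (Nat.Partrec.Code.primrec_evaln.to_comp.comp h1)

inductive USym
  | succ | out

def USym.toBool : USym → Bool
  | .succ => true
  | .out => false

instance : Finite USym := Finite.of_injective USym.toBool (by
  intro a b h
  cases a <;> cases b <;> simp_all [USym.toBool])

def USym.ar : USym → ℕ
  | .succ => 1
  | .out => 3

/-- the universal interpretation `{succ, Out, P}` -/
def U : Interp where
  Fs := USym
  Ps := Unit
  fa := USym.ar
  pa := fun _ => 3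
  fn := fun h => match h with
    | .succ => fun (v : Fin 1 → ℕ) => v 0 + 1
    | .out => fun (v : Fin 3 → ℕ) => (ev (v 0) (v 1) (v 2)).getD 0
  pr := fun _ v => (ev (v 0) (v 1) (v 2)).isSome
  fn_rec := by
    intro h
    match h with
    | .succ =>
      exact (Computable.succ.comp (Computable.fin_app.comp Computable.id
        (Computable.const (0 : Fin 1))))
    | .out =>
      have : Computable (fun v : Fin 3 → ℕ => (ev (v 0) (v 1) (v 2)).getD 0) :=
        Computable.option_getD ev_comp (Computable.const 0)
      exact this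
  pr_rec := by
    intro p
    have : Computable (fun v : Fin 3 → ℕ => (ev (v 0) (v 1) (v 2)).isSome) :=
      Primrec.option_isSome.to_comp.comp ev_comp
    exact this

theorem U_finite : U.IsFinite := ⟨inferInstanceAs (Finite USym), inferInstanceAs (Finite Unit)⟩

def a3 : Fin 3 → ℕ := ![2, 1, 0]

/-- the search loop -/
def L : Flowchart U where
  N := Fin 4
  fin := inferInstance
  node := fun q => match q with
    | 0 => .test () a3 1 2
    | 1 => .op USym.out 3 a3 3
    | 2 => .op USym.succ 2 (fun _ => 2) 0
    | 3 => .halt 3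
  first := 0

/-- invariant for soundness -/
def Inv (q : Fin 4) (σ : Store) (y : ℕ) : Prop :=
  match q with
  | 0 => y ∈ (Denumerable.ofNat Code (σ 1)).eval (σ 0)
  | 1 => y = (ev (σ 2) (σ 1) (σ 0)).getD 0
  | 2 => y ∈ (Denumerable.ofNat Code (σ 1)).eval (σ 0)
  | 3 => y = σ 3

theorem L_sound {q : L.N} {σ : Store} {y m : ℕ} (h : Exec L q σ y m) : Inv q σ y := by
  induction h with
  | @halt q σ v hq =>
    match q, hq with
    | (0 : Fin 4), hq => cases hq
    | (1 : Fin 4), hq => cases hq
    | (2 : Fin 4), hq => cases hq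
    | (3 : Fin 4), hq => cases hq; rfl
  | @op q σ h d a q' y m hq he ih =>
    match q, hq with
    | (0 : Fin 4), hq => cases hq
    | (1 : Fin 4), hq =>
      cases hq
      simp only [Inv] at ih ⊢
      rw [ih, Function.update_self]
      rfl
    | (2 : Fin 4), hq =>
      cases hq
      simp only [Inv] at ih ⊢
      rw [Function.update_of_ne (by decide), Function.update_of_ne (by decide)] at ih
      exact ih
    | (3 : Fin 4), hq => cases hq
  | @test q σ p a q₁ q₂ y m hq he ih =>
    match q, hq with
    | (0 : Fin 4), hq =>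
      cases hq
      by_cases hp : U.pr () (fun i => σ (a3 i)) = true
      · rw [hp] at ih
        simp only [cond_true, Inv] at ih ⊢
        have h1 : (ev (σ 2) (σ 1) (σ 0)).isSome = true := hp
        obtain ⟨z, hz⟩ := Option.isSome_iff_exists.1 h1
        rw [hz] at ih
        simp only [Option.getD_some] at ih
        subst ih
        exact Nat.Partrec.Code.evaln_sound hz
      · rw [Bool.not_eq_true] at hp
        rw [hp] at ih
        simp only [cond_false, Inv] at ih ⊢
        exact ih
    | (1 : Fin 4), hq => cases hq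
    | (2 : Fin 4), hq => cases hq
    | (3 : Fin 4), hq => cases hq

theorem L_complete (i x y k₀ : ℕ) (hk : ev k₀ i x = some y) (hmin : ∀ k < k₀, ev k i x = none) :
    ∀ j ≤ k₀, ∀ σ : Store, σ 0 = x → σ 1 = i → σ 2 = k₀ - j → ∃ m, Exec L (0 : Fin 4) σ y m := by
  intro j
  induction j with
  | zero =>
    intro _ σ h0 h1 h2
    have hp : U.pr () (fun i => σ (a3 i)) = true := by
      show (ev (σ 2) (σ 1) (σ 0)).isSome = true
      rw [h0, h1, h2, Nat.sub_zero, hk]
      rfl
    refine ⟨3, Exec.test (q₁ := (1 : Fin 4)) (q₂ := (2 : Fin 4)) (p := ()) (a := a3) rfl ?_⟩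
    rw [hp]
    refine Exec.op (h := USym.out) (d := 3) (a := a3) (q' := (3 : Fin 4)) rfl ?_
    have h3 := Exec.halt (A := L) (q := (3 : Fin 4)) (v := 3)
      (σ := Function.update σ 3 (U.fn USym.out (fun i => σ (a3 i)))) rfl
    rw [Function.update_self] at h3
    have h4 : U.fn USym.out (fun i => σ (a3 i)) = y := by
      show (ev (σ 2) (σ 1) (σ 0)).getD 0 = y
      rw [h0, h1, h2, Nat.sub_zero, hk]
      rfl
    rw [h4] at h3 ⊢
    exact h3
  | succ j ih =>
    intro hj σ h0 h1 h2
    have hp : U.pr () (fun i => σ (a3 i)) = false := by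
      show (ev (σ 2) (σ 1) (σ 0)).isSome = false
      rw [h0, h1, h2, hmin _ (by omega)]
      rfl
    obtain ⟨m, hm⟩ := ih (by omega) (Function.update σ 2 (σ 2 + 1)) (by
      rw [Function.update_of_ne (by decide), h0]) (by
      rw [Function.update_of_ne (by decide), h1]) (by
      rw [Function.update_self, h2]; omega)
    refine ⟨m + 2, Exec.test (q₁ := (1 : Fin 4)) (q₂ := (2 : Fin 4)) (p := ()) (a := a3) rfl ?_⟩
    rw [hp]
    refine Exec.op (h := USym.succ) (d := 2) (a := fun _ => 2) (q' := (0 : Fin 4)) rfl ?_
    exact hm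

/-- set the variable `1` to `i`, then search -/
def P (C : Flowchart U) : ℕ → Flowchart U
  | 0 => C
  | i + 1 => consOp (F := U) USym.succ 1 (fun _ => 1) (P C i)

theorem P_iff (C : Flowchart U) (i : ℕ) : ∀ (σ : Store) (y m : ℕ),
    Exec (P C i) (P C i).first σ y (m + i) ↔ Exec C C.first (Function.update σ 1 (σ 1 + i)) y m := by
  induction i with
  | zero =>
    intro σ y m
    simp [P]
  | succ i ih =>
    intro σ y m
    have h1 := consOp_iff (F := U) USym.succ 1 (fun _ => 1) (P C i) σ y (m + i)
    have h2 := ih (Function.update σ 1 (σ 1 + 1)) y m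
    have h3 : (U.fn USym.succ fun i => σ ((fun _ => 1 : Fin (U.fa USym.succ) → ℕ) i)) = σ 1 + 1 := rfl
    rw [h3] at h1
    rw [Function.update_self, Function.update_idem] at h2
    have h4 : σ 1 + 1 + i = σ 1 + (i + 1) := by omega
    rw [h4] at h2
    exact h1.trans h2

theorem P_ge (C : Flowchart U) (i : ℕ) : ∀ (σ : Store) (y m : ℕ),
    Exec (P C i) (P C i).first σ y m → ∃ m', m = m' + i := by
  induction i with
  | zero =>
    intro σ y m _
    exact ⟨m, rfl⟩
  | succ i ih =>
    intro σ y m h
    have hpos := h.pos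
    obtain ⟨k, rfl⟩ : ∃ k, m = k + 1 := ⟨m - 1, by omega⟩
    have h1 := (consOp_iff (F := U) USym.succ 1 (fun _ => 1) (P C i) σ y k).1 h
    obtain ⟨m', hm'⟩ := ih _ _ _ h1
    exact ⟨m', by omega⟩

theorem U_universal : U.Universal := by
  intro φ hφ
  obtain ⟨c, hc⟩ := Nat.Partrec.Code.exists_code.1 (Partrec.nat_iff.1 hφ)
  refine ⟨P L (Encodable.encode c), ?_⟩
  set i := Encodable.encode c with hi
  have hci : Denumerable.ofNat Code i = c := Denumerable.ofNat_encode c
  intro x y
  constructor
  · intro hy
    rw [← hc] at hy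
    obtain ⟨k, hk⟩ := Nat.Partrec.Code.evaln_complete.1 hy
    have hex : ∃ k, (ev k i x).isSome := ⟨k, by
      show (Nat.Partrec.Code.evaln k (Denumerable.ofNat Code i) x).isSome = true
      rw [hci]
      exact Option.isSome_iff_exists.2 ⟨y, hk⟩⟩
    classical
    have hsp := Nat.find_spec hex
    obtain ⟨z, hz⟩ := Option.isSome_iff_exists.1 hsp
    have hzy : z = y := by
      have h1 : z ∈ (Denumerable.ofNat Code i).eval x := Nat.Partrec.Code.evaln_sound hz
      rw [hci] at h1
      exact Part.mem_unique h1 hy
    subst hzy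
    obtain ⟨m, hm⟩ := L_complete i x z (Nat.find hex) hz (by
      intro k hk
      have := Nat.find_min hex hk
      rw [Bool.not_eq_true, Option.isSome_eq_false_iff, Option.isNone_iff_eq_none] at this
      exact this) (Nat.find hex) (le_refl _) (Function.update (init x) 1 i) (by
        rw [Function.update_of_ne (by decide)]; rfl) (by rw [Function.update_self]) (by
        rw [Function.update_of_ne (by decide), Nat.sub_self]; rfl)
    refine ⟨m + i + 1, m + i, rfl, (P_iff L i (init x) z m).2 ?_⟩
    have h0 : init x 1 + i = i := by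
      show 0 + i = i
      omega
    rw [h0]
    exact hm
  · rintro ⟨m, m', rfl, he⟩
    obtain ⟨k, rfl⟩ := P_ge L i _ _ _ he
    have h1 := (P_iff L i (init x) y k).1 he
    have h2 := L_sound h1
    have h3 : Inv (0 : Fin 4) (Function.update (init x) 1 (init x 1 + i)) y := h2
    simp only [Inv] at h3
    rw [Function.update_self, Function.update_of_ne (by decide)] at h3
    have h0 : init x 1 + i = i := by
      show 0 + i = i
      omega
    rw [h0, hci] at h3
    rw [← hc]
    exact h3

end Pool.Agent.Q216.Flow
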